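import Mathlib
import Pool.Agent.Helper639.ForceCH
import Pool.Agent.R820.ES.Main

set_option autoImplicit false

namespace Pool.Agent.Results.MP_058773_gt.UnderDiamond

open Pool.Agent.Helper639.ForceCH (Om OmegaOnePreserved DiamondHolds)

/-- Every continuous real-valued function has a countable range. -/
def FunctionallyCountable (X : Type) [TopologicalSpace X] : Prop :=
  ∀ f : X → ℝ, Continuous f → (Set.range f).Countable

/-- `A` is strongly dense in the family `𝓕`: it meets each nonempty intersection of members. -/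
def StronglyDense {X : Type} (A : Set X) (𝓕 : Set (Set X)) : Prop :=
  ∀ 𝓖 ⊆ 𝓕, (⋂₀ 𝓖).Nonempty → (A ∩ ⋂₀ 𝓖).Nonempty

/-- Each countable family of closed sets has a countable strongly dense set. -/
def ExponentiallySeparable (X : Type) [TopologicalSpace X] : Prop :=
  ∀ 𝓕 : Set (Set X), 𝓕.Countable → (∀ F ∈ 𝓕, IsClosed F) →
    ∃ A : Set X, A.Countable ∧ StronglyDense A 𝓕

/-- `C` is a closed unbounded subset of `ω₁` (the sentence named by `IsClubName`). -/
def IsClub (C : Om → Prop) : Prop :=
  (∀ a : Om, ∃ b : Om, a < b ∧ C b) ∧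
    ∀ a : Om, (∃ b, b < a) → (∀ b : Om, b < a → ∃ c : Om, (b < c ∧ c < a) ∧ C c) → C a

/-- Diamond: the sentence which `DiamondHolds P` says is forced, evaluated in the universe. -/
def Diamond : Prop :=
  ∃ A : Om → Om → Prop, ∀ S : Om → Prop, ∀ C : Om → Prop,
    IsClub C → ∃ a : Om, C a ∧ ∀ b : Om, b < a → (S b ↔ A a b)

/-- Some forcing notion forces that `ω₁` is preserved and diamond holds, and diamond implies that
there is a normal Hausdorff functionally countable space which is not exponentially separable; the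
space is in addition first countable, locally compact, locally countable and any two disjoint closed
sets in it are separated by a clopen set. -/
theorem result :
    (∃ (P : Type) (_ : Preorder P), Nonempty P ∧
      ∀ p : P, p ∈ OmegaOnePreserved P ∧ p ∈ DiamondHolds P) ∧
    (Diamond → ∃ (X : Type) (_ : TopologicalSpace X), T2Space X ∧ NormalSpace X ∧
      FunctionallyCountable X ∧ ¬ ExponentiallySeparable X ∧
      FirstCountableTopology X ∧ LocallyCompactSpace X ∧
      (∀ C D : Set X, IsClosed C → IsClosed D → Disjoint C D →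
        ∃ V, IsClopen V ∧ C ⊆ V ∧ Disjoint V D) ∧
      (∀ x : X, ∃ U : Set X, IsOpen U ∧ x ∈ U ∧ U.Countable)) := by
  refine ⟨?_, fun hd => ?_⟩
  · obtain ⟨P, i, hn, h⟩ := Pool.Agent.Helper639.ForceCH.exists_forcing
    exact ⟨P, i, hn, fun p => ⟨(h p).1, (h p).2.1⟩⟩
  · obtain ⟨X, τ, h1, h2, h3, ⟨K, hK, hK'⟩, h5, h6, h7, h8, h9⟩ := Pool.Agent.R820.ES.main hd
    refine ⟨X, τ, h1, h2, h3, ?_, h6, h7, h8, h9⟩
    intro h
    obtain ⟨A, hA, hA'⟩ := h (Set.range K) (Set.countable_range K) (by
      rintro _ ⟨n, rfl⟩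
      exact hK n)
    have h10 : (Set.univ : Set X) ⊆ A := by
      intro x _
      obtain ⟨y, hy, hy'⟩ := hA' (K '' {n | x ∈ K n}) (by
        rintro _ ⟨n, -, rfl⟩
        exact Set.mem_range_self n) ⟨x, by
        rintro _ ⟨n, hn, rfl⟩
        exact hn⟩
      have h11 : y = x := hK' x y fun n hn => hy' _ ⟨n, hn, rfl⟩
      exact h11 ▸ hy
    exact not_countable_iff.2 h5 (Set.countable_univ_iff.1 (hA.mono h10))

end Pool.Agent.Results.MP_058773_gt.UnderDiamond
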